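import Mathlib

set_option autoImplicit false

namespace Pool.Agent.Work.MP_9ec85a_gt

open scoped InnerProductSpace Topology
open Filter

variable {V : Type*} [NormedAddCommGroup V] [InnerProductSpace ℝ V]

/-- The data of a weak Mycielski set which is discrete. -/
structure Data (X : Set V) (g h : V ≃ᵃⁱ[ℝ] V) (p q : V) : Prop where
  hp : p ∈ X
  hq : q ∈ X
  hpq : p ≠ q
  hg : g '' X = X \ {p}
  hh : h '' X = X \ {q}
  disc : ∀ x ∈ X, ∃ ε > 0, ∀ y ∈ X, dist y x < ε → y = x

namespace Data

variable {X : Set V} {g h : V ≃ᵃⁱ[ℝ] V} {p q : V}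

theorem swap (D : Data X g h p q) : Data X h g q p :=
  ⟨D.hq, D.hp, D.hpq.symm, D.hh, D.hg, D.disc⟩

theorem g_mem (D : Data X g h p q) {x : V} (hx : x ∈ X) : g x ∈ X := by
  have : g x ∈ X \ {p} := D.hg ▸ Set.mem_image_of_mem _ hx
  exact this.1

theorem g_ne (D : Data X g h p q) {x : V} (hx : x ∈ X) : g x ≠ p := by
  have : g x ∈ X \ {p} := D.hg ▸ Set.mem_image_of_mem _ hx
  exact this.2

theorem g_inv (D : Data X g h p q) {x : V} (hx : x ∈ X) (hxp : x ≠ p) : g.symm x ∈ X := by
  have : x ∈ g '' X := by rw [D.hg]; exact ⟨hx, hxp⟩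
  obtain ⟨y, hy, rfl⟩ := this
  simpa using hy

theorem h_mem (D : Data X g h p q) {x : V} (hx : x ∈ X) : h x ∈ X := D.swap.g_mem hx
theorem h_ne (D : Data X g h p q) {x : V} (hx : x ∈ X) : h x ≠ q := D.swap.g_ne hx
theorem h_inv (D : Data X g h p q) {x : V} (hx : x ∈ X) (hxq : x ≠ q) : h.symm x ∈ X :=
  D.swap.g_inv hx hxq

theorem gpow_mem (D : Data X g h p q) {x : V} (hx : x ∈ X) (n : ℕ) : (g ^ n) x ∈ X := by
  induction n with
  | zero => simpa using hx
  | succ n ih => rw [pow_succ', AffineIsometryEquiv.coe_mul]; exact D.g_mem ih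

end Data

/-- `s` maps `X` into `X` and its image misses `p` or misses `q`. -/
def Good (X : Set V) (p q : V) (s : V ≃ᵃⁱ[ℝ] V) : Prop :=
  (∀ x ∈ X, s x ∈ X) ∧ ((∀ x ∈ X, s x ≠ p) ∨ (∀ x ∈ X, s x ≠ q))

theorem Good.mul {X : Set V} {p q : V} {s t : V ≃ᵃⁱ[ℝ] V} (hs : Good X p q s)
    (ht : ∀ x ∈ X, t x ∈ X) : Good X p q (s * t) := by
  refine ⟨fun x hx => ?_, ?_⟩
  · rw [AffineIsometryEquiv.coe_mul]; exact hs.1 _ (ht x hx)
  · rcases hs.2 with h | h
    · left; intro x hx; rw [AffineIsometryEquiv.coe_mul]; exact h _ (ht x hx)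
    · right; intro x hx; rw [AffineIsometryEquiv.coe_mul]; exact h _ (ht x hx)

namespace Data

variable {X : Set V} {g h : V ≃ᵃⁱ[ℝ] V} {p q : V}

theorem good_g (D : Data X g h p q) : Good X p q g :=
  ⟨fun _ hx => D.g_mem hx, Or.inl fun _ hx => D.g_ne hx⟩

theorem good_h (D : Data X g h p q) : Good X p q h :=
  ⟨fun _ hx => D.h_mem hx, Or.inr fun _ hx => D.h_ne hx⟩

theorem false_of_bounded [FiniteDimensional ℝ V] (D : Data X g h p q)
    (W w : ℕ → (V ≃ᵃⁱ[ℝ] V)) (hW : ∀ n, W (n + 1) = W n * w n)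
    (hw : ∀ n, Good X p q (w n)) (o : V) (B : ℝ) (hB : ∀ n, dist (W n o) o ≤ B) : False := by
  have key : ∀ i k, ∃ s, Good X p q s ∧ W (i + k + 1) = W i * s := by
    intro i k
    induction k with
    | zero => exact ⟨w i, hw i, hW i⟩
    | succ k ih =>
      obtain ⟨s, hs, hs'⟩ := ih
      refine ⟨s * w (i + k + 1), hs.mul (hw _).1, ?_⟩
      rw [show i + (k + 1) + 1 = (i + k + 1) + 1 by ring, hW, hs', mul_assoc]
  have : ProperSpace V := FiniteDimensional.proper ℝ V
  obtain ⟨ε₁, hε₁, h₁⟩ := D.disc p D.hp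
  obtain ⟨ε₂, hε₂, h₂⟩ := D.disc q D.hq
  set x : ℕ → V × V := fun n => (W n p, W n q) with hx
  have hbd : ∀ n, x n ∈ Metric.closedBall ((o, o) : V × V) (B + (dist p o + dist q o)) := by
    intro n
    rw [Metric.mem_closedBall, Prod.dist_eq]
    have e1 : dist (W n p) o ≤ B + dist p o := by
      calc dist (W n p) o ≤ dist (W n p) (W n o) + dist (W n o) o := dist_triangle _ _ _
        _ ≤ dist p o + B := by
          rw [(W n).isometry.dist_eq]; exact add_le_add le_rfl (hB n)
        _ = _ := add_comm _ _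
    have e2 : dist (W n q) o ≤ B + dist q o := by
      calc dist (W n q) o ≤ dist (W n q) (W n o) + dist (W n o) o := dist_triangle _ _ _
        _ ≤ dist q o + B := by
          rw [(W n).isometry.dist_eq]; exact add_le_add le_rfl (hB n)
        _ = _ := add_comm _ _
    have := dist_nonneg (x := p) (y := o)
    have := dist_nonneg (x := q) (y := o)
    refine max_le ?_ ?_ <;> simp only [hx] <;> linarith
  obtain ⟨a, -, φ, hφ, hlim⟩ := tendsto_subseq_of_bounded Metric.isBounded_closedBall hbd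
  have hc := hlim.cauchySeq
  rw [Metric.cauchySeq_iff'] at hc
  obtain ⟨N, hN⟩ := hc (min ε₁ ε₂) (lt_min hε₁ hε₂)
  have h3 := hN (N + 1) (Nat.le_succ N)
  have hlt : φ N < φ (N + 1) := hφ (Nat.lt_succ_self N)
  obtain ⟨k, hk⟩ := Nat.exists_eq_add_of_lt hlt
  obtain ⟨s, hs, hs'⟩ := key (φ N) k
  simp only [Function.comp, hx, Prod.dist_eq] at h3
  rw [hk, hs', AffineIsometryEquiv.coe_mul] at h3
  simp only [Function.comp, (W (φ N)).isometry.dist_eq] at h3
  have hp' : s p = p := h₁ _ (hs.1 _ D.hp)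
    (lt_of_le_of_lt (le_max_left _ _) (lt_of_lt_of_le h3 (min_le_left _ _)))
  have hq' : s q = q := h₂ _ (hs.1 _ D.hq)
    (lt_of_le_of_lt (le_max_right _ _) (lt_of_lt_of_le h3 (min_le_right _ _)))
  rcases hs.2 with h4 | h4
  · exact h4 p D.hp hp'
  · exact h4 q D.hq hq'


theorem mem_closure_good (D : Data X g h p q) {s : V ≃ᵃⁱ[ℝ] V}
    (hs : s ∈ Submonoid.closure ({g, h} : Set (V ≃ᵃⁱ[ℝ] V))) :
    (∀ x ∈ X, s x ∈ X) ∧ (s = 1 ∨ Good X p q s) := by
  induction hs using Submonoid.closure_induction with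
  | mem x hx =>
    rcases hx with rfl | hx
    · exact ⟨D.good_g.1, Or.inr D.good_g⟩
    · rw [Set.mem_singleton_iff] at hx
      subst hx
      exact ⟨D.good_h.1, Or.inr D.good_h⟩
  | one => exact ⟨fun x hx => by simpa using hx, Or.inl rfl⟩
  | mul s t _ _ hs ht =>
    refine ⟨fun x hx => ?_, ?_⟩
    · rw [AffineIsometryEquiv.coe_mul]; exact hs.1 _ (ht.1 x hx)
    · rcases hs.2 with rfl | h
      · rw [one_mul]; exact ht.2
      · exact Or.inr (h.mul ht.1)

theorem steering [FiniteDimensional ℝ V] (D : Data X g h p q) (l m : ℝ) (hl : 0 < l)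
    (hm : 0 < m) (hlm : l + m = 1) (o : V) (ho : l • g o + m • h o = o) : False := by
  set M := Submonoid.closure ({g, h} : Set (V ≃ᵃⁱ[ℝ] V)) with hM
  have hgM : g ∈ M := Submonoid.subset_closure (by simp)
  have hhM : h ∈ M := Submonoid.subset_closure (by simp)
  set S : Submodule ℝ V := Submodule.span ℝ {v | ∃ w ∈ M, v = w o - o} with hS
  have hlin : ∀ (w : V ≃ᵃⁱ[ℝ] V) (x y : V), w x - w y = w.linearIsometryEquiv (x - y) := by
    intro w x y
    have := w.map_vsub x y
    simpa using this.symm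
  -- the linear part of an element of `M` preserves `S`
  have hinv : ∀ w ∈ M, ∀ v ∈ S, w.linearIsometryEquiv v ∈ S := by
    intro w hw v hv
    induction hv using Submodule.span_induction with
    | mem x hx =>
      obtain ⟨w', hw', rfl⟩ := hx
      have : w.linearIsometryEquiv (w' o - o) = ((w * w') o - o) - (w o - o) := by
        rw [← hlin, AffineIsometryEquiv.coe_mul]
        simp [Function.comp]
      rw [this]
      exact S.sub_mem (Submodule.subset_span ⟨w * w', M.mul_mem hw hw', rfl⟩)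
        (Submodule.subset_span ⟨w, hw, rfl⟩)
    | zero => simp
    | add x y _ _ hx hy => rw [map_add]; exact S.add_mem hx hy
    | smul a x _ hx => rw [map_smul]; exact S.smul_mem a hx
  have hsurj : ∀ w ∈ M, ∀ v ∈ S, ∃ v' ∈ S, w.linearIsometryEquiv v' = v := by
    intro w hw v hv
    have hle : S.map (w.linearIsometryEquiv.toLinearEquiv : V →ₗ[ℝ] V) ≤ S := by
      rintro _ ⟨y, hy, rfl⟩
      exact hinv w hw y hy
    have heq : S.map (w.linearIsometryEquiv.toLinearEquiv : V →ₗ[ℝ] V) = S := by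
      apply Submodule.eq_of_le_of_finrank_eq hle
      exact LinearEquiv.finrank_map_eq w.linearIsometryEquiv.toLinearEquiv S
    rw [← heq] at hv
    obtain ⟨v', hv', rfl⟩ := hv
    exact ⟨v', hv', rfl⟩
  -- in every direction of `S` some word moves `o` backwards
  have hneg : ∀ z ∈ S, z ≠ 0 → ∃ w ∈ M, ⟪w o - o, z⟫_ℝ < 0 := by
    intro z hz hz0
    by_contra hcon
    push Not at hcon
    have hzero : ∀ w ∈ M, ⟪w o - o, z⟫_ℝ = 0 := by
      intro w hw
      induction hw using Submonoid.closure_induction_right with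
      | one => simp
      | mul_right x hx y hy ih =>
        have e1 := hcon (x * g) (M.mul_mem hx hgM)
        have e2 := hcon (x * h) (M.mul_mem hx hhM)
        have e3 : l * ⟪(x * g) o - o, z⟫_ℝ + m * ⟪(x * h) o - o, z⟫_ℝ = ⟪x o - o, z⟫_ℝ := by
          rw [AffineIsometryEquiv.coe_mul, AffineIsometryEquiv.coe_mul]
          simp only [Function.comp]
          have a1 : x (g o) = x.linearIsometryEquiv (g o - o) + x o := by
            rw [← hlin]; abel
          have a2 : x (h o) = x.linearIsometryEquiv (h o - o) + x o := by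
            rw [← hlin]; abel
          rw [a1, a2, ← real_inner_smul_left, ← real_inner_smul_left, ← inner_add_left]
          congr 1
          have a3 : l • x.linearIsometryEquiv (g o - o) + m • x.linearIsometryEquiv (h o - o) = 0 := by
            rw [← map_smul, ← map_smul, ← map_add]
            have : l • (g o - o) + m • (h o - o) = 0 := by
              have : l • (g o - o) + m • (h o - o) = (l • g o + m • h o) - (l + m) • o := by
                simp only [smul_sub, add_smul]; abel
              rw [this, ho, hlm, one_smul, sub_self]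
            rw [this, map_zero]
          calc _ = (l • x.linearIsometryEquiv (g o - o) + m • x.linearIsometryEquiv (h o - o))
                + (l + m) • (x o - o) := by
                simp only [smul_sub, smul_add, add_smul]; abel
            _ = _ := by rw [a3, hlm, one_smul, zero_add]
        rw [ih] at e3
        rcases hy with rfl | hy
        · nlinarith [mul_nonneg hl.le e1, mul_nonneg hm.le e2]
        · rw [Set.mem_singleton_iff] at hy
          subst hy
          nlinarith [mul_nonneg hl.le e1, mul_nonneg hm.le e2]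
    have hortho : ∀ v ∈ S, ⟪v, z⟫_ℝ = 0 := by
      intro v hv
      induction hv using Submodule.span_induction with
      | mem x hx =>
        obtain ⟨w', hw', rfl⟩ := hx
        exact hzero w' hw'
      | zero => simp
      | add x y _ _ hx hy => rw [inner_add_left, hx, hy, add_zero]
      | smul a x _ hx => rw [inner_smul_left, hx, mul_zero]
    exact hz0 (inner_self_eq_zero.mp (hortho z hz))
  have hprop : ProperSpace V := FiniteDimensional.proper ℝ V
  -- uniform version, by compactness of the unit sphere of `S`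
  have hcomp : ∃ c > 0, ∃ C : ℝ, ∀ z ∈ (Metric.sphere (0 : V) 1 ∩ (S : Set V)),
      ∃ w ∈ M, ‖w o - o‖ ≤ C ∧ ⟪w o - o, z⟫_ℝ ≤ -c := by
    have hK : IsCompact (Metric.sphere (0 : V) 1 ∩ (S : Set V)) :=
      (isCompact_sphere _ _).inter_right S.closed_of_finiteDimensional
    refine hK.induction_on (p := fun K => ∃ c > 0, ∃ C : ℝ, ∀ z ∈ K,
      ∃ w ∈ M, ‖w o - o‖ ≤ C ∧ ⟪w o - o, z⟫_ℝ ≤ -c) ?_ ?_ ?_ ?_
    · exact ⟨1, one_pos, 0, fun z hz => absurd hz (Set.notMem_empty z)⟩
    · rintro s t hst ⟨c, hc, C, hC⟩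
      exact ⟨c, hc, C, fun z hz => hC z (hst hz)⟩
    · rintro s t ⟨c, hc, C, hC⟩ ⟨c', hc', C', hC'⟩
      refine ⟨min c c', lt_min hc hc', max C C', ?_⟩
      rintro z (hz | hz)
      · obtain ⟨w, hw, h1, h2⟩ := hC z hz
        exact ⟨w, hw, h1.trans (le_max_left _ _), h2.trans (neg_le_neg (min_le_left _ _))⟩
      · obtain ⟨w, hw, h1, h2⟩ := hC' z hz
        exact ⟨w, hw, h1.trans (le_max_right _ _), h2.trans (neg_le_neg (min_le_right _ _))⟩
    · rintro z ⟨hz1, hz2⟩
      have hz0 : z ≠ 0 := by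
        rintro rfl
        simp at hz1
      obtain ⟨w, hw, hwz⟩ := hneg z hz2 hz0
      set r := ⟪w o - o, z⟫_ℝ with hr
      refine ⟨{z' | ⟪w o - o, z'⟫_ℝ < r / 2}, ?_, -r / 2, by linarith, ‖w o - o‖, ?_⟩
      · apply mem_nhdsWithin_of_mem_nhds
        apply IsOpen.mem_nhds
        · exact isOpen_lt (by fun_prop) continuous_const
        · show r < r / 2
          linarith
      · intro z' hz'
        refine ⟨w, hw, le_rfl, ?_⟩
        have : ⟪w o - o, z'⟫_ℝ < r / 2 := hz'
        linarith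
  obtain ⟨c, hc, C, hC⟩ := hcomp
  have hg1 : g ≠ 1 := by
    intro h1
    have := D.g_ne D.hp
    rw [h1] at this
    exact this (by simp)
  set B : ℝ := C ^ 2 / (2 * c) + |C| + ‖g o - o‖ with hB
  have hB0 : 0 ≤ C ^ 2 / (2 * c) := by positivity
  have hstep : ∀ W ∈ M, ‖W o - o‖ ≤ B → ∃ w ∈ M, w ≠ 1 ∧ ‖(W * w) o - o‖ ≤ B := by
    intro W hW hWB
    have hWS : W o - o ∈ S := Submodule.subset_span ⟨W, hW, rfl⟩
    by_cases hz : W o - o = 0
    · refine ⟨g, hgM, hg1, ?_⟩
      have e1 : (W * g) o - o = W.linearIsometryEquiv (g o - o) + (W o - o) := by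
        rw [← hlin, AffineIsometryEquiv.coe_mul]
        simp [Function.comp]
      rw [e1, hz, add_zero, LinearIsometryEquiv.norm_map]
      have := abs_nonneg C
      linarith
    · obtain ⟨v', hv', hv'z⟩ := hsurj W hW _ hWS
      have hn : ‖v'‖ = ‖W o - o‖ := by rw [← hv'z, LinearIsometryEquiv.norm_map]
      have hnpos : 0 < ‖v'‖ := by rw [hn]; exact norm_pos_iff.mpr hz
      obtain ⟨w, hw, h1, h2⟩ := hC (‖v'‖⁻¹ • v') ⟨by
        rw [mem_sphere_zero_iff_norm, norm_smul, norm_inv, norm_norm,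
          inv_mul_cancel₀ hnpos.ne'], S.smul_mem _ hv'⟩
      have h3 : ⟪w o - o, v'⟫_ℝ ≤ -c * ‖v'‖ := by
        rw [real_inner_smul_right] at h2
        have := mul_le_mul_of_nonneg_right h2 hnpos.le
        rw [mul_comm (‖v'‖⁻¹), mul_assoc, inv_mul_cancel₀ hnpos.ne', mul_one] at this
        linarith
      refine ⟨w, hw, ?_, ?_⟩
      · rintro rfl
        have : (1 : V ≃ᵃⁱ[ℝ] V) o - o = 0 := by simp
        rw [this, inner_zero_left] at h3
        nlinarith
      · have e1 : (W * w) o - o = (W o - o) + W.linearIsometryEquiv (w o - o) := by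
          rw [← hlin, AffineIsometryEquiv.coe_mul]
          simp only [Function.comp]
          abel
        have hC0 : 0 ≤ C := (norm_nonneg _).trans h1
        rw [e1]
        by_cases hsmall : ‖W o - o‖ ≤ C ^ 2 / (2 * c)
        · calc ‖(W o - o) + W.linearIsometryEquiv (w o - o)‖
              ≤ ‖W o - o‖ + ‖W.linearIsometryEquiv (w o - o)‖ := norm_add_le _ _
            _ ≤ C ^ 2 / (2 * c) + C := by
              rw [LinearIsometryEquiv.norm_map]; exact add_le_add hsmall h1
            _ ≤ B := by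
              rw [hB, abs_of_nonneg hC0]
              have := norm_nonneg (g o - o)
              linarith
        · push Not at hsmall
          refine le_trans ?_ hWB
          have hin : ⟪W o - o, W.linearIsometryEquiv (w o - o)⟫_ℝ ≤ -c * ‖W o - o‖ := by
            rw [← hn, ← hv'z, LinearIsometryEquiv.inner_map_map, real_inner_comm]
            exact h3
          have hsq : ‖(W o - o) + W.linearIsometryEquiv (w o - o)‖ ^ 2 ≤ ‖W o - o‖ ^ 2 := by
            rw [norm_add_sq_real, LinearIsometryEquiv.norm_map]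
            have h5 : ‖w o - o‖ ^ 2 ≤ C ^ 2 := by
              exact pow_le_pow_left₀ (norm_nonneg _) h1 2
            have h6 : C ^ 2 < 2 * c * ‖W o - o‖ := by
              rw [div_lt_iff₀ (by positivity)] at hsmall
              linarith
            nlinarith
          exact le_of_sq_le_sq hsq (norm_nonneg _)
  -- build the sequence
  have hB0' : 0 ≤ B := by
    have := abs_nonneg C
    have := norm_nonneg (g o - o)
    linarith
  choose! nxt hn1 hn2 hn3 using hstep
  let W : ℕ → (V ≃ᵃⁱ[ℝ] V) := fun n => Nat.rec 1 (fun _ W => W * nxt W) n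
  have hW0 : W 0 = 1 := rfl
  have hWs : ∀ n, W (n + 1) = W n * nxt (W n) := fun n => rfl
  have hWM : ∀ n, W n ∈ M ∧ ‖W n o - o‖ ≤ B := by
    intro n
    induction n with
    | zero => rw [hW0]; exact ⟨M.one_mem, by simpa using hB0'⟩
    | succ n ih =>
      rw [hWs]
      exact ⟨M.mul_mem ih.1 (hn1 _ ih.1 ih.2), hn3 _ ih.1 ih.2⟩
  refine D.false_of_bounded W (fun n => nxt (W n)) hWs ?_ o B ?_
  · intro n
    rcases (D.mem_closure_good (hn1 _ (hWM n).1 (hWM n).2)).2 with h1 | h1
    · exact absurd h1 (hn2 _ (hWM n).1 (hWM n).2)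
    · exact h1
  · intro n
    rw [dist_eq_norm]
    exact (hWM n).2

end Data

end Pool.Agent.Work.MP_9ec85a_gt
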