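import Mathlib

set_option autoImplicit false

namespace Pool.Agent.Work.MP_9ec85a_gt

open scoped InnerProductSpace Topology
open Filter

variable {V : Type*} [NormedAddCommGroup V] [InnerProductSpace ℝ V]

theorem fixed_of_inner_eq (A : V ≃ₗᵢ[ℝ] V) (x : V) (hx : ⟪x, A x⟫_ℝ = ‖x‖ ^ 2) : A x = x := by
  have : ‖A x - x‖ ^ 2 = 0 := by
    rw [norm_sub_sq_real, LinearIsometryEquiv.norm_map, real_inner_comm, hx]
    ring
  have := pow_eq_zero_iff (two_ne_zero) |>.mp this
  exact sub_eq_zero.mp (norm_eq_zero.mp this)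

theorem fixed_of_average (A B : V ≃ₗᵢ[ℝ] V) (l m : ℝ) (hl : 0 < l) (hm : 0 < m)
    (hlm : l + m = 1) (x : V) (hx : x - (l • A x + m • B x) = 0) : A x = x ∧ B x = x := by
  have hx' : l • A x + m • B x = x := (sub_eq_zero.mp hx).symm
  have h1 : l * ⟪x, A x⟫_ℝ + m * ⟪x, B x⟫_ℝ = ‖x‖ ^ 2 := by
    rw [← real_inner_smul_right, ← real_inner_smul_right, ← inner_add_right, hx',
      real_inner_self_eq_norm_sq]
  have h2 : ⟪x, A x⟫_ℝ ≤ ‖x‖ ^ 2 := by
    have := real_inner_le_norm x (A x)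
    rw [LinearIsometryEquiv.norm_map] at this
    nlinarith
  have h3 : ⟪x, B x⟫_ℝ ≤ ‖x‖ ^ 2 := by
    have := real_inner_le_norm x (B x)
    rw [LinearIsometryEquiv.norm_map] at this
    nlinarith
  have hm' : m = 1 - l := by linarith
  constructor
  · apply fixed_of_inner_eq
    apply le_antisymm h2
    by_contra hlt
    push Not at hlt
    have := mul_lt_mul_of_pos_left hlt hl
    have := mul_le_mul_of_nonneg_left h3 hm.le
    have e : l * ‖x‖ ^ 2 + m * ‖x‖ ^ 2 = ‖x‖ ^ 2 := by rw [← add_mul, hlm, one_mul]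
    linarith
  · apply fixed_of_inner_eq
    apply le_antisymm h3
    by_contra hlt
    push Not at hlt
    have := mul_lt_mul_of_pos_left hlt hm
    have := mul_le_mul_of_nonneg_left h2 hl.le
    have e : l * ‖x‖ ^ 2 + m * ‖x‖ ^ 2 = ‖x‖ ^ 2 := by rw [← add_mul, hlm, one_mul]
    linarith

/-- The equation `x - (l A x + m B x) = y` is solvable when `y` is orthogonal to the common
fixed vectors. -/
theorem solve_average [FiniteDimensional ℝ V] (A B : V ≃ₗᵢ[ℝ] V) (l m : ℝ) (hl : 0 < l)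
    (hm : 0 < m) (hlm : l + m = 1) (y : V) (hy : ∀ w, A w = w → B w = w → ⟪w, y⟫_ℝ = 0) :
    ∃ x, x - (l • A x + m • B x) = y := by
  let T : V →ₗ[ℝ] V := LinearMap.id -
    (l • (A.toLinearEquiv : V →ₗ[ℝ] V) + m • (B.toLinearEquiv : V →ₗ[ℝ] V))
  have hT : ∀ x, T x = x - (l • A x + m • B x) := fun x => rfl
  have hle : LinearMap.range T ≤ (LinearMap.ker T)ᗮ := by
    rintro _ ⟨x, rfl⟩
    rw [Submodule.mem_orthogonal]
    intro w hw
    rw [LinearMap.mem_ker, hT] at hw
    obtain ⟨hA, hB⟩ := fixed_of_average A B l m hl hm hlm w hw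
    rw [hT, inner_sub_right, inner_add_right, real_inner_smul_right, real_inner_smul_right]
    have e1 : ⟪w, A x⟫_ℝ = ⟪w, x⟫_ℝ := by
      conv_lhs => rw [← hA]
      exact LinearIsometryEquiv.inner_map_map A w x
    have e2 : ⟪w, B x⟫_ℝ = ⟪w, x⟫_ℝ := by
      conv_lhs => rw [← hB]
      exact LinearIsometryEquiv.inner_map_map B w x
    rw [e1, e2, ← add_mul, hlm, one_mul, sub_self]
  have heq : LinearMap.range T = (LinearMap.ker T)ᗮ := by
    apply Submodule.eq_of_le_of_finrank_eq hle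
    have h1 := LinearMap.finrank_range_add_finrank_ker T
    have h2 := Submodule.finrank_add_finrank_orthogonal (LinearMap.ker T)
    omega
  have : y ∈ LinearMap.range T := by
    rw [heq, Submodule.mem_orthogonal]
    intro w hw
    rw [LinearMap.mem_ker, hT] at hw
    obtain ⟨hA, hB⟩ := fixed_of_average A B l m hl hm hlm w hw
    exact hy w hA hB
  obtain ⟨x, hx⟩ := this
  exact ⟨x, hx⟩

theorem apply_eq (g : V ≃ᵃⁱ[ℝ] V) (x : V) : g x = g.linearIsometryEquiv x + g 0 := by
  have := g.map_vadd 0 x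
  simpa using this

/-- Either some proper average of `g` and `h` has a fixed point, or there is a drift vector. -/
theorem fixed_or_drift [FiniteDimensional ℝ V] (g h : V ≃ᵃⁱ[ℝ] V) :
    (∃ l m : ℝ, 0 < l ∧ 0 < m ∧ l + m = 1 ∧ ∃ o : V, l • g o + m • h o = o) ∨
    ∃ u : V, u ≠ 0 ∧ g.linearIsometryEquiv u = u ∧ h.linearIsometryEquiv u = u ∧
      0 ≤ ⟪u, g 0⟫_ℝ ∧ 0 ≤ ⟪u, h 0⟫_ℝ ∧ (0 < ⟪u, g 0⟫_ℝ ∨ 0 < ⟪u, h 0⟫_ℝ) := by
  classical
  set A := g.linearIsometryEquiv with hA
  set B := h.linearIsometryEquiv with hB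
  let W : Submodule ℝ V :=
    { carrier := {v | A v = v ∧ B v = v}
      add_mem' := by
        rintro a b ⟨h1, h2⟩ ⟨h3, h4⟩
        exact ⟨by rw [map_add, h1, h3], by rw [map_add, h2, h4]⟩
      zero_mem' := ⟨map_zero _, map_zero _⟩
      smul_mem' := by
        rintro c a ⟨h1, h2⟩
        exact ⟨by rw [map_smul, h1], by rw [map_smul, h2]⟩ }
  have hWmem : ∀ v, v ∈ W ↔ A v = v ∧ B v = v := fun v => Iff.rfl
  have havg : ∀ l m : ℝ, 0 < l → 0 < m → l + m = 1 →
      (∀ w ∈ W, ⟪w, l • g 0 + m • h 0⟫_ℝ = 0) → ∃ o : V, l • g o + m • h o = o := by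
    intro l m hl hm hlm hw
    obtain ⟨x, hx⟩ := solve_average A B l m hl hm hlm (l • g 0 + m • h 0)
      (fun w h1 h2 => hw w ⟨h1, h2⟩)
    refine ⟨x, ?_⟩
    rw [apply_eq g x, apply_eq h x, ← hA, ← hB, smul_add, smul_add]
    have : l • A x + l • g 0 + (m • B x + m • h 0) = (l • A x + m • B x) +
      (l • g 0 + m • h 0) := by abel
    rw [this, ← hx]
    abel
  set a := W.starProjection (g 0) with ha
  set b := W.starProjection (h 0) with hb
  have haW : a ∈ W := Submodule.starProjection_apply_mem _ _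
  have hbW : b ∈ W := Submodule.starProjection_apply_mem _ _
  have hia : ∀ w ∈ W, ⟪w, g 0⟫_ℝ = ⟪w, a⟫_ℝ := by
    intro w hw
    have := Submodule.starProjection_inner_eq_zero (K := W) (g 0) w hw
    rw [inner_sub_left] at this
    rw [real_inner_comm, real_inner_comm a w]
    linarith
  have hib : ∀ w ∈ W, ⟪w, h 0⟫_ℝ = ⟪w, b⟫_ℝ := by
    intro w hw
    have := Submodule.starProjection_inner_eq_zero (K := W) (h 0) w hw
    rw [inner_sub_left] at this
    rw [real_inner_comm, real_inner_comm b w]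
    linarith
  by_cases ha0 : a = 0
  · by_cases hb0 : b = 0
    · left
      refine ⟨1 / 2, 1 / 2, by norm_num, by norm_num, by norm_num,
        havg _ _ (by norm_num) (by norm_num) (by norm_num) ?_⟩
      intro w hw
      rw [inner_add_right, real_inner_smul_right, real_inner_smul_right, hia w hw, hib w hw,
        ha0, hb0, inner_zero_right, mul_zero, add_zero]
    · right
      refine ⟨b, hb0, hbW.1, hbW.2, ?_, ?_, Or.inr ?_⟩
      · rw [hia b hbW, ha0, inner_zero_right]
      · rw [hib b hbW]; exact real_inner_self_nonneg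
      · rw [hib b hbW]; exact real_inner_self_pos.mpr hb0
  · by_cases hb0 : b = 0
    · right
      refine ⟨a, ha0, haW.1, haW.2, ?_, ?_, Or.inl ?_⟩
      · rw [hia a haW]; exact real_inner_self_nonneg
      · rw [hib a haW, hb0, inner_zero_right]
      · rw [hia a haW]; exact real_inner_self_pos.mpr ha0
    · have hna : 0 < ‖a‖ := norm_pos_iff.mpr ha0
      have hnb : 0 < ‖b‖ := norm_pos_iff.mpr hb0
      set u := ‖b‖ • a + ‖a‖ • b with hu
      by_cases hu0 : u = 0
      · left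
        refine ⟨‖b‖ / (‖a‖ + ‖b‖), ‖a‖ / (‖a‖ + ‖b‖), by positivity, by positivity,
          by field_simp; ring, havg _ _ (by positivity) (by positivity)
            (by field_simp; ring) ?_⟩
        intro w hw
        rw [inner_add_right, real_inner_smul_right, real_inner_smul_right, hia w hw, hib w hw]
        have : ⟪w, u⟫_ℝ = 0 := by rw [hu0, inner_zero_right]
        rw [hu, inner_add_right, real_inner_smul_right, real_inner_smul_right] at this
        have h2 : ‖b‖ / (‖a‖ + ‖b‖) * ⟪w, a⟫_ℝ + ‖a‖ / (‖a‖ + ‖b‖) * ⟪w, b⟫_ℝ =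
          (‖b‖ * ⟪w, a⟫_ℝ + ‖a‖ * ⟪w, b⟫_ℝ) / (‖a‖ + ‖b‖) := by ring
        rw [h2, this, zero_div]
      · right
        have huW : u ∈ W := W.add_mem (W.smul_mem _ haW) (W.smul_mem _ hbW)
        have hnu : 0 < ‖u‖ ^ 2 := by
          have := norm_pos_iff.mpr hu0
          positivity
        have hexp : ‖u‖ ^ 2 = 2 * (‖a‖ * ‖b‖) * (‖a‖ * ‖b‖ + ⟪a, b⟫_ℝ) := by
          rw [hu, norm_add_sq_real, norm_smul, norm_smul, norm_norm, norm_norm,
            real_inner_smul_left, real_inner_smul_right]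
          ring
        have hpos : 0 < ‖a‖ * ‖b‖ + ⟪a, b⟫_ℝ := by
          rw [hexp] at hnu
          have : 0 < 2 * (‖a‖ * ‖b‖) := by positivity
          exact (pos_iff_pos_of_mul_pos hnu).mp this
        have e1 : ⟪u, g 0⟫_ℝ = ‖a‖ * (‖a‖ * ‖b‖ + ⟪a, b⟫_ℝ) := by
          rw [hia u huW, hu, inner_add_left, real_inner_smul_left, real_inner_smul_left,
            real_inner_self_eq_norm_sq, real_inner_comm a b]
          ring
        have e2 : ⟪u, h 0⟫_ℝ = ‖b‖ * (‖a‖ * ‖b‖ + ⟪a, b⟫_ℝ) := by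
          rw [hib u huW, hu, inner_add_left, real_inner_smul_left, real_inner_smul_left,
            real_inner_self_eq_norm_sq]
          ring
        have p1 : 0 < ⟪u, g 0⟫_ℝ := by rw [e1]; positivity
        have p2 : 0 < ⟪u, h 0⟫_ℝ := by rw [e2]; positivity
        exact ⟨u, hu0, huW.1, huW.2, p1.le, p2.le, Or.inl p1⟩

end Pool.Agent.Work.MP_9ec85a_gt
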