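import Mathlib
import Pool.Agent.Work.MP_9ec85a_gt.Core
import Pool.Agent.Work.MP_9ec85a_gt.Lin

set_option autoImplicit false

namespace Pool.Agent.Work.MP_9ec85a_gt

open scoped InnerProductSpace Topology
open Filter

variable {V : Type*} [NormedAddCommGroup V] [InnerProductSpace ℝ V]

theorem mul_app (s t : V ≃ᵃⁱ[ℝ] V) (x : V) : (s * t) x = s (t x) := rfl

theorem one_app (x : V) : (1 : V ≃ᵃⁱ[ℝ] V) x = x := rfl

theorem inv_app_self (s : V ≃ᵃⁱ[ℝ] V) (x : V) : s⁻¹ (s x) = x := by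
  rw [← mul_app, inv_mul_cancel, one_app]

theorem self_inv_app (s : V ≃ᵃⁱ[ℝ] V) (x : V) : s (s⁻¹ x) = x := by
  rw [← mul_app, mul_inv_cancel, one_app]

theorem symm_eq_inv (s : V ≃ᵃⁱ[ℝ] V) : s.symm = s⁻¹ := rfl

theorem pow_succ_app (s : V ≃ᵃⁱ[ℝ] V) (n : ℕ) (x : V) : (s ^ (n + 1)) x = s ((s ^ n) x) := by
  rw [pow_succ', mul_app]

/-- An affine recurrence can be run backwards. -/
theorem extend_back [FiniteDimensional ℝ V] (g : V ≃ᵃⁱ[ℝ] V) (φ ψ : V →ᵃ[ℝ] V) (x : V)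
    (N : ℕ) (H : ∀ n ≥ N, φ ((g ^ n) x) = ψ ((g ^ n) x)) : φ x = ψ x := by
  set S : ℕ → AffineSubspace ℝ V := fun n => affineSpan ℝ {y | ∃ k ≥ n, y = (g ^ k) x} with hS
  have hmap : ∀ n, (S n).map (g.toAffineEquiv : V →ᵃ[ℝ] V) = S (n + 1) := by
    intro n
    rw [hS]
    simp only
    rw [AffineSubspace.map_span]
    congr 1
    ext y
    constructor
    · rintro ⟨_, ⟨k, hk, rfl⟩, rfl⟩
      refine ⟨k + 1, by omega, ?_⟩
      rw [pow_succ_app]
      rfl
    · rintro ⟨k, hk, rfl⟩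
      obtain ⟨k', rfl⟩ : ∃ k', k = k' + 1 := ⟨k - 1, by omega⟩
      refine ⟨(g ^ k') x, ⟨k', by omega, rfl⟩, ?_⟩
      rw [pow_succ_app]
      rfl
  have hle : ∀ n, S (n + 1) ≤ S n := by
    intro n
    apply affineSpan_mono
    rintro y ⟨k, hk, rfl⟩
    exact ⟨k, by omega, rfl⟩
  have hne : ∀ n, (S n : Set V).Nonempty := fun n =>
    ⟨(g ^ n) x, subset_affineSpan ℝ _ ⟨n, le_rfl, rfl⟩⟩
  have heq : ∀ n, S (n + 1) = S n := by
    intro n
    refine AffineSubspace.eq_of_direction_eq_of_nonempty_of_le ?_ (hne _) (hle n)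
    apply Submodule.eq_of_le_of_finrank_eq (AffineSubspace.direction_le (hle n))
    rw [← hmap n, AffineSubspace.map_direction]
    exact LinearEquiv.finrank_map_eq g.toAffineEquiv.linear (S n).direction
  have h0 : ∀ n, S n = S 0 := by
    intro n
    induction n with
    | zero => rfl
    | succ n ih => rw [heq, ih]
  have hx : x ∈ S N := by
    rw [h0 N]
    exact subset_affineSpan ℝ _ ⟨0, le_rfl, by simp⟩
  have hagree : Set.EqOn φ ψ {y | ∃ k ≥ N, y = (g ^ k) x} := by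
    rintro y ⟨k, hk, rfl⟩
    exact H k hk
  exact AffineMap.eqOn_affineSpan hagree hx

namespace Data

variable {X : Set V} {g h : V ≃ᵃⁱ[ℝ] V} {p q : V}

theorem ginv_pow_mem (D : Data X g h p q) {y : V} (hy : y ∈ X) (n : ℕ)
    (H : ∀ j < n, (g⁻¹ ^ j) y ≠ p) : (g⁻¹ ^ n) y ∈ X := by
  induction n with
  | zero => simpa using hy
  | succ n ih =>
    rw [pow_succ_app]
    exact D.g_inv (ih fun j hj => H j (by omega)) (H n (by omega))

theorem inv_height (t : V → ℝ) (α : ℝ) (tg : ∀ x, t (g x) = t x + α) (x : V) :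
    t (g⁻¹ x) = t x - α := by
  have := tg (g⁻¹ x)
  rw [self_inv_app] at this
  linarith

theorem pow_height (t : V → ℝ) (α : ℝ) (tg : ∀ x, t (g x) = t x + α) (n : ℕ) (x : V) :
    t ((g ^ n) x) = t x + n * α := by
  induction n with
  | zero => simp
  | succ n ih => rw [pow_succ_app, tg, ih]; push_cast; ring

theorem inv_pow_height (t : V → ℝ) (α : ℝ) (tg : ∀ x, t (g x) = t x + α) (n : ℕ) (x : V) :
    t ((g⁻¹ ^ n) x) = t x - n * α := by
  have := pow_height (g := g⁻¹) t (-α) (fun x => by rw [inv_height t α tg]; ring) n x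
  rw [this]; ring

/-- If positive powers commute, the lowest of `p`, `q` gives a contradiction. -/
theorem commuting_aux (D : Data X g h p q) (t : V → ℝ) (α β : ℝ) (hα : 0 < α) (hβ : 0 < β)
    (tg : ∀ x, t (g x) = t x + α) (th : ∀ x, t (h x) = t x + β) (m m' : ℕ) (hm : 0 < m)
    (hm' : 0 < m') (hc : ∀ z ∈ X, (g ^ m) ((h ^ m') z) = (h ^ m') ((g ^ m) z))
    (hpq : t p ≤ t q) : False := by
  have hy : (h⁻¹ ^ m') p ∈ X := by
    apply D.swap.ginv_pow_mem D.hp
    intro j hj hjq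
    rcases Nat.eq_zero_or_pos j with rfl | hj0
    · exact D.hpq (by simpa using hjq)
    · have h1 := inv_pow_height t β th j p
      rw [hjq] at h1
      have : (0 : ℝ) < j * β := by positivity
      linarith
  set y := (h⁻¹ ^ m') p with hydef
  have hty : t y = t p - m' * β := inv_pow_height t β th m' p
  have hm'β : (0 : ℝ) < m' * β := by positivity
  have hz : (g⁻¹ ^ m) y ∈ X := by
    apply D.ginv_pow_mem hy
    intro j hj hjp
    have h1 := inv_pow_height t α tg j y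
    rw [hjp] at h1
    have : (0 : ℝ) ≤ j * α := by positivity
    linarith
  set z := (g⁻¹ ^ m) y with hzdef
  have e1 : (g ^ m) z = y := by rw [hzdef, inv_pow, self_inv_app]
  have e2 : (h ^ m') y = p := by rw [hydef, inv_pow, self_inv_app]
  have e3 := hc z hz
  rw [e1, e2] at e3
  obtain ⟨n, rfl⟩ : ∃ n, m = n + 1 := ⟨m - 1, by omega⟩
  rw [pow_succ_app] at e3
  exact D.g_ne (D.gpow_mem (D.swap.gpow_mem hz m') n) e3

theorem commuting (D : Data X g h p q) (t : V → ℝ) (α β : ℝ) (hα : 0 < α) (hβ : 0 < β)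
    (tg : ∀ x, t (g x) = t x + α) (th : ∀ x, t (h x) = t x + β) (m m' : ℕ) (hm : 0 < m)
    (hm' : 0 < m') (hc : ∀ z ∈ X, (g ^ m) ((h ^ m') z) = (h ^ m') ((g ^ m) z)) : False := by
  rcases le_total (t p) (t q) with h1 | h1
  · exact D.commuting_aux t α β hα hβ tg th m m' hm hm' hc h1
  · exact D.swap.commuting_aux t β α hβ hα th tg m' m hm' hm (fun z hz => (hc z hz).symm) h1

end Data

end Pool.Agent.Work.MP_9ec85a_gt
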