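import Mathlib
import Pool.Agent.Work.MP_9ec85a_gt.Drift

set_option autoImplicit false

namespace Pool.Agent.Work.MP_9ec85a_gt

open scoped InnerProductSpace Topology
open Filter

variable {V : Type*} [NormedAddCommGroup V] [InnerProductSpace ℝ V]

theorem lin_sub (w : V ≃ᵃⁱ[ℝ] V) (x y : V) : w x - w y = w.linearIsometryEquiv (x - y) := by
  have := w.map_vsub x y
  simpa using this.symm

theorem pow_add_app (s : V ≃ᵃⁱ[ℝ] V) (m n : ℕ) (x : V) : (s ^ (m + n)) x = (s ^ m) ((s ^ n) x) := by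
  rw [pow_add, mul_app]

namespace Data

variable {X : Set V} {g h : V ≃ᵃⁱ[ℝ] V} {p q : V}

/-- If `g` fixes a point up to a common fixed translation, a power of `g` commutes with `h`
on `X`. -/
theorem commute_of_fixed [FiniteDimensional ℝ V] (D : Data X g h p q) (t : V → ℝ) (α β : ℝ)
    (hα : 0 < α) (hβ : 0 < β) (tg : ∀ x, t (g x) = t x + α) (th : ∀ x, t (h x) = t x + β)
    (c v : V) (hc : g c = c + v) (hv : g.linearIsometryEquiv v = v)
    (hv' : h.linearIsometryEquiv v = v) :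
    ∃ m : ℕ, 0 < m ∧ ∀ z ∈ X, (g ^ m) (h z) = h ((g ^ m) z) := by
  classical
  set T0 : ℝ := max (t p) (t q) with hT0
  set Y : Set V := {x | x ∈ X ∧ T0 ≤ t x} with hY
  -- the commutators
  set s : ℕ → (V ≃ᵃⁱ[ℝ] V) := fun k => (g⁻¹ ^ k) * (h⁻¹ * (g ^ k * h)) with hs
  have s_app : ∀ k x, s k x = (g⁻¹ ^ k) (h⁻¹ ((g ^ k) (h x))) := fun k x => rfl
  have s_height : ∀ k x, t (s k x) = t x := by
    intro k x
    rw [s_app, inv_pow_height t α tg, inv_height t β th, pow_height t α tg, th]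
    ring
  have s_mem : ∀ k, ∀ x ∈ Y, s k x ∈ Y := by
    rintro k x ⟨hx, hxT⟩
    have hp1 : t p ≤ t x := (le_max_left _ _).trans hxT
    have hq1 : t q ≤ t x := (le_max_right _ _).trans hxT
    refine ⟨?_, by rw [s_height]; exact hxT⟩
    rw [s_app]
    have h1 : (g ^ k) (h x) ∈ X := D.gpow_mem (D.h_mem hx) k
    have h2 : h⁻¹ ((g ^ k) (h x)) ∈ X := by
      apply D.h_inv h1
      intro heq
      have := pow_height t α tg k (h x)
      rw [heq, th] at this
      have : (0 : ℝ) ≤ k * α := by positivity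
      linarith
    apply D.ginv_pow_mem h2
    intro j hj heq
    have h3 := inv_pow_height t α tg j (h⁻¹ ((g ^ k) (h x)))
    rw [heq, inv_height t β th, pow_height t α tg, th] at h3
    have : (j : ℝ) * α < k * α := by
      apply mul_lt_mul_of_pos_right _ hα
      exact_mod_cast hj
    linarith
  -- inverse commutators
  have s_inv_mem : ∀ k, ∀ x ∈ Y, (s k)⁻¹ x ∈ X := by
    rintro k x ⟨hx, hxT⟩
    have hp1 : t p ≤ t x := (le_max_left _ _).trans hxT
    have hq1 : t q ≤ t x := (le_max_right _ _).trans hxT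
    have e : (s k)⁻¹ x = h⁻¹ ((g⁻¹ ^ k) (h ((g ^ k) x))) := by
      have : (s k)⁻¹ = h⁻¹ * ((g⁻¹ ^ k) * (h * g ^ k)) := by
        simp only [hs]
        group
      rw [this]; rfl
    rw [e]
    have h1 : h ((g ^ k) x) ∈ X := D.h_mem (D.gpow_mem hx k)
    have h2 : (g⁻¹ ^ k) (h ((g ^ k) x)) ∈ X := by
      apply D.ginv_pow_mem h1
      intro j hj heq
      have h3 := inv_pow_height t α tg j (h ((g ^ k) x))
      rw [heq, th, pow_height t α tg] at h3
      have : (j : ℝ) * α < k * α := by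
        apply mul_lt_mul_of_pos_right _ hα
        exact_mod_cast hj
      linarith
    apply D.h_inv h2
    intro heq
    have h3 := inv_pow_height t α tg k (h ((g ^ k) x))
    rw [heq, th, pow_height t α tg] at h3
    linarith
  -- boundedness
  have gc : ∀ k : ℕ, (g ^ k) c = c + (k : ℝ) • v := by
    intro k
    induction k with
    | zero => simp
    | succ k ih =>
      rw [pow_succ_app, ih]
      have := lin_sub g (c + (k : ℝ) • v) c
      rw [add_sub_cancel_left, map_smul, hv, hc] at this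
      have h2 : g (c + (k : ℝ) • v) = (k : ℝ) • v + (c + v) := sub_eq_iff_eq_add.mp this
      rw [h2]; push_cast; rw [add_smul, one_smul]; abel
  have hhc : ∀ k : ℕ, h (c + (k : ℝ) • v) = h c + (k : ℝ) • v := by
    intro k
    have := lin_sub h (c + (k : ℝ) • v) c
    rw [add_sub_cancel_left, map_smul, hv'] at this
    rw [sub_eq_iff_eq_add.mp this, add_comm]
  have s_bdd : ∀ k x, dist (s k x) c ≤ dist (h x) c + dist (h c) c := by
    intro k x
    have e1 : dist (s k x) c = dist ((g ^ k) (h x)) (h ((g ^ k) c)) := by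
      have a1 : s k x = (g⁻¹ ^ k) (h⁻¹ ((g ^ k) (h x))) := rfl
      have a2 : c = (g⁻¹ ^ k) (h⁻¹ (h ((g ^ k) c))) := by
        rw [inv_app_self, inv_pow, inv_app_self]
      rw [a1]
      conv_lhs => rw [a2]
      rw [(g⁻¹ ^ k).dist_map, (h⁻¹).dist_map]
    rw [e1, gc, hhc]
    calc dist ((g ^ k) (h x)) (h c + (k : ℝ) • v)
        ≤ dist ((g ^ k) (h x)) ((g ^ k) c) + dist ((g ^ k) c) (h c + (k : ℝ) • v) :=
          dist_triangle _ _ _
      _ = dist (h x) c + dist (h c) c := by
          rw [(g ^ k).dist_map, gc, dist_add_right, dist_comm c]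
  -- a finite affinely spanning set
  obtain ⟨F, hFY, hFspan, hFind⟩ := exists_affineIndependent ℝ V Y
  have hFfin : Finite F := finite_of_fin_dim_affineIndependent ℝ hFind
  have hprop : ProperSpace V := FiniteDimensional.proper ℝ V
  have := Fintype.ofFinite F
  have hdisc : ∃ ε > 0, ∀ x : F, ∀ y ∈ X, dist y (x : V) < ε → y = x := by
    have hex : ∀ x : F, ∃ ε > 0, ∀ y ∈ X, dist y (x : V) < ε → y = x :=
      fun x => D.disc x (hFY x.2).1
    choose e he he' using hex
    have hev : ∀ᶠ ε in 𝓝[>] (0 : ℝ), ∀ x : F, ε < e x := by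
      rw [Filter.eventually_all]
      intro x
      filter_upwards [Ioo_mem_nhdsGT (he x)] with ε hε using hε.2
    obtain ⟨ε, h1, h2⟩ := (hev.and self_mem_nhdsWithin).exists
    exact ⟨ε, h2, fun x y hy hd => he' x y hy (hd.trans (h1 x))⟩
  obtain ⟨ε, hε, hεF⟩ := hdisc
  obtain ⟨k, k', hkk', hagree⟩ : ∃ k k', k < k' ∧ ∀ x : F, s k x = s k' x := by
    set G : ℕ → (F → V) := fun k x => s k x with hG
    have hbd : ∃ R : ℝ, ∀ k, G k ∈ Metric.closedBall (fun _ : F => c) R := by
      refine ⟨∑ x : F, (dist (h x) c + dist (h c) c), fun k => ?_⟩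
      rw [Metric.mem_closedBall]
      rw [dist_pi_le_iff (Finset.sum_nonneg fun x _ => by positivity)]
      intro x
      refine (s_bdd k x).trans ?_
      exact Finset.single_le_sum (f := fun x : F => dist (h x) c + dist (h c) c)
        (fun x _ => by positivity) (Finset.mem_univ x)
    obtain ⟨R, hR⟩ := hbd
    obtain ⟨a, -, φ, hφ, hlim⟩ := tendsto_subseq_of_bounded Metric.isBounded_closedBall hR
    have hc := hlim.cauchySeq
    rw [Metric.cauchySeq_iff'] at hc
    obtain ⟨N, hN⟩ := hc ε hε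
    have h3 := hN (N + 1) (Nat.le_succ N)
    have hlt : φ N < φ (N + 1) := hφ (Nat.lt_succ_self N)
    refine ⟨φ N, φ (N + 1), hlt, fun x => ?_⟩
    rw [dist_pi_lt_iff hε] at h3
    have h4 := h3 x
    simp only [Function.comp, hG] at h4
    -- h4 : dist (s (φ (N+1)) x) (s (φ N) x) < ε
    have h5 : dist ((s (φ N))⁻¹ (s (φ (N + 1)) x)) (x : V) < ε := by
      calc dist ((s (φ N))⁻¹ (s (φ (N + 1)) x)) (x : V)
          = dist ((s (φ N))⁻¹ (s (φ (N + 1)) x)) ((s (φ N))⁻¹ (s (φ N) x)) := by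
            rw [inv_app_self (s (φ N)) (x : V)]
        _ = dist (s (φ (N + 1)) x) (s (φ N) x) := (s (φ N))⁻¹.dist_map _ _
        _ < ε := h4
    have h6 := hεF x _ (s_inv_mem (φ N) _ (s_mem (φ (N + 1)) _ (hFY x.2))) h5
    have h7 := congrArg (s (φ N)) h6
    rw [self_inv_app] at h7
    exact h7.symm
  have hagreeY : ∀ x ∈ Y, s k x = s k' x := by
    intro x hx
    have hE : Set.EqOn ((s k).toAffineEquiv : V →ᵃ[ℝ] V) ((s k').toAffineEquiv : V →ᵃ[ℝ] V) F := by
      intro y hy
      exact hagree ⟨y, hy⟩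
    have hx' : x ∈ affineSpan ℝ F := by
      rw [hFspan]; exact subset_affineSpan ℝ _ hx
    exact AffineMap.eqOn_affineSpan hE hx'
  obtain ⟨m, rfl⟩ : ∃ m, k' = m + k := ⟨k' - k, by omega⟩
  have hm : 0 < m := by omega
  refine ⟨m, hm, ?_⟩
  -- commutation at high altitude
  have hhigh : ∀ y ∈ X, T0 + k * α ≤ t y → (g ^ m) (h y) = h ((g ^ m) y) := by
    intro y hy hyt
    have h1 : h y ∈ X := D.h_mem hy
    have h2 : (g⁻¹ ^ k) (h y) ∈ X := by
      apply D.ginv_pow_mem h1
      intro j hj heq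
      have h3 := inv_pow_height t α tg j (h y)
      rw [heq, th] at h3
      have h4 : (j : ℝ) * α < k * α := by
        apply mul_lt_mul_of_pos_right _ hα
        exact_mod_cast hj
      have h5 : t p ≤ T0 := le_max_left _ _
      linarith
    have h3 := inv_pow_height t α tg k (h y)
    rw [th] at h3
    have hx : h⁻¹ ((g⁻¹ ^ k) (h y)) ∈ Y := by
      constructor
      · apply D.h_inv h2
        intro heq
        rw [heq] at h3
        have h5 : t q ≤ T0 := le_max_right _ _
        linarith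
      · rw [inv_height t β th, h3]; linarith
    have h4 := hagreeY _ hx
    rw [s_app, s_app, self_inv_app] at h4
    have e1 : (g ^ k) ((g⁻¹ ^ k) (h y)) = h y := by rw [inv_pow, self_inv_app]
    rw [e1, inv_app_self] at h4
    rw [pow_add_app g m k, e1] at h4
    -- h4 : (g⁻¹ ^ k) y = (g⁻¹ ^ (m + k)) (h⁻¹ ((g ^ m) (h y)))
    have h5 := congrArg (g ^ (m + k)) h4
    have e2 : (g ^ (m + k)) ((g⁻¹ ^ (m + k)) (h⁻¹ ((g ^ m) (h y)))) = h⁻¹ ((g ^ m) (h y)) := by
      rw [inv_pow, self_inv_app]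
    rw [e2, pow_add_app] at h5
    have e3 : (g ^ k) ((g⁻¹ ^ k) y) = y := by rw [inv_pow, self_inv_app]
    rw [e3] at h5
    rw [h5, self_inv_app]
  intro z hz
  have hext := extend_back g ((g ^ m * h).toAffineEquiv : V →ᵃ[ℝ] V)
    ((h * g ^ m).toAffineEquiv : V →ᵃ[ℝ] V) z
  obtain ⟨N, hN⟩ := exists_nat_ge ((T0 + k * α - t z) / α)
  refine hext N ?_
  intro n hn
  refine hhigh _ (D.gpow_mem hz n) ?_
  rw [pow_height t α tg]
  rw [div_le_iff₀ hα] at hN
  have : (N : ℝ) * α ≤ n * α := by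
    apply mul_le_mul_of_nonneg_right _ hα.le
    exact_mod_cast hn
  linarith

end Data

end Pool.Agent.Work.MP_9ec85a_gt
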