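import Mathlib
import Pool.Agent.Work.MP_9ec85a_gt.Comm

set_option autoImplicit false

namespace Pool.Agent.Work.MP_9ec85a_gt

open scoped InnerProductSpace Topology
open Filter

variable {V : Type*} [NormedAddCommGroup V] [InnerProductSpace ℝ V]

/-- In dimension three, a linear isometry with an axis `u` is either an involution or has no
further fixed vectors orthogonal to the axis. -/
theorem dichotomy (hV : Module.finrank ℝ V = 3) (A : V ≃ₗᵢ[ℝ] V) (u : V) (hu : u ≠ 0)
    (hAu : A u = u) : (∀ x, A (A x) = x) ∨ (∀ x, ⟪u, x⟫_ℝ = 0 → A x = x → x = 0) := by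
  have hfin : FiniteDimensional ℝ V := Module.finite_of_finrank_pos (by omega)
  by_cases H : ∀ x, ⟪u, x⟫_ℝ = 0 → A x = x → x = 0
  · exact Or.inr H
  left
  push Not at H
  obtain ⟨v, huv, hAv, hv⟩ := H
  set S : Submodule ℝ V := Submodule.span ℝ {u, v} with hS
  have hSfix : ∀ x ∈ S, A x = x := by
    intro x hx
    rw [hS, Submodule.mem_span_pair] at hx
    obtain ⟨a, b, rfl⟩ := hx
    rw [map_add, map_smul, map_smul, hAu, hAv]
  have hSrank : Module.finrank ℝ S = 2 := by
    have hli : LinearIndependent ℝ ![u, v] := by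
      rw [LinearIndependent.pair_iff]
      intro a b hab
      have h1 : ⟪u, a • u + b • v⟫_ℝ = 0 := by rw [hab, inner_zero_right]
      rw [inner_add_right, real_inner_smul_right, real_inner_smul_right, huv, mul_zero,
        add_zero] at h1
      have ha : a = 0 := by
        rcases mul_eq_zero.mp h1 with h | h
        · exact h
        · exact absurd (inner_self_eq_zero.mp h) hu
      rw [ha, zero_smul, zero_add] at hab
      exact ⟨ha, (smul_eq_zero.mp hab).resolve_right hv⟩
    have h1 := finrank_span_eq_card hli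
    have h2 : Set.range ![u, v] = {u, v} := by
      ext x
      simp [eq_comm, or_comm]
    rw [h2] at h1
    rw [hS, h1, Fintype.card_fin]
  have hN : Module.finrank ℝ Sᗮ = 1 := by
    have := Submodule.finrank_add_finrank_orthogonal S
    omega
  obtain ⟨⟨w, hw⟩, hw0, hspan⟩ := finrank_eq_one_iff'.mp hN
  have hAw : A w ∈ Sᗮ := by
    rw [Submodule.mem_orthogonal]
    intro s hs
    rw [← hSfix s hs, LinearIsometryEquiv.inner_map_map]
    exact (Submodule.mem_orthogonal S w).mp hw s hs
  obtain ⟨c, hc⟩ := hspan ⟨A w, hAw⟩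
  have hc' : c • w = A w := congrArg Subtype.val hc
  have hwne : w ≠ 0 := fun h => hw0 (Subtype.ext h)
  have hcc : c * c = 1 := by
    have h1 : ‖c • w‖ = ‖w‖ := by rw [hc', LinearIsometryEquiv.norm_map]
    rw [norm_smul] at h1
    have hwpos : ‖w‖ ≠ 0 := norm_ne_zero_iff.mpr hwne
    have h2 : ‖c‖ = 1 := by
      field_simp at h1
      linarith
    have h3 : c ^ 2 = 1 := by
      rw [← sq_abs, ← Real.norm_eq_abs, h2]; norm_num
    nlinarith
  have hAAw : A (A w) = w := by
    rw [← hc', map_smul, ← hc', smul_smul, hcc, one_smul]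
  intro x
  obtain ⟨y, hy, z, hz, rfl⟩ := S.exists_add_mem_mem_orthogonal x
  obtain ⟨d, hd⟩ := hspan ⟨z, hz⟩
  have hd' : d • w = z := congrArg Subtype.val hd
  rw [map_add, map_add, hSfix y hy, hSfix y hy, ← hd', map_smul, map_smul, hAAw]

namespace Data

variable {X : Set V} {g h : V ≃ᵃⁱ[ℝ] V} {p q : V}

theorem no_fixed_point [FiniteDimensional ℝ V] (D : Data X g h p q) (c : V) (hc : g c = c) :
    False := by
  refine D.false_of_bounded (fun n => g ^ n) (fun _ => g) (fun n => pow_succ g n)
    (fun _ => D.good_g) c 0 ?_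
  intro n
  have : (g ^ n) c = c := by
    induction n with
    | zero => rfl
    | succ n ih => rw [pow_succ_app, ih, hc]
  rw [this, dist_self]

/-- Solve `g c = c + (drift along u)` when there are no further fixed vectors. -/
theorem exists_axis [FiniteDimensional ℝ V] (g : V ≃ᵃⁱ[ℝ] V) (u : V) (hu : u ≠ 0)
    (hgu : g.linearIsometryEquiv u = u)
    (H : ∀ x, ⟪u, x⟫_ℝ = 0 → g.linearIsometryEquiv x = x → x = 0) :
    ∃ c : V, g c = c + (⟪u, g 0⟫_ℝ / ‖u‖ ^ 2) • u := by
  have hun : (‖u‖ ^ 2 : ℝ) ≠ 0 := by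
    have := norm_pos_iff.mpr hu
    positivity
  set a : ℝ := ⟪u, g 0⟫_ℝ / ‖u‖ ^ 2 with ha
  obtain ⟨c, hc⟩ := solve_average g.linearIsometryEquiv g.linearIsometryEquiv (1 / 2) (1 / 2)
    (by norm_num) (by norm_num) (by norm_num) (g 0 - a • u) (by
      intro w hw _
      -- `w` is a multiple of `u`
      set b : ℝ := ⟪u, w⟫_ℝ / ‖u‖ ^ 2 with hb
      have h1 : ⟪u, w - b • u⟫_ℝ = 0 := by
        rw [inner_sub_right, real_inner_smul_right, real_inner_self_eq_norm_sq, hb,
          div_mul_cancel₀ _ hun, sub_self]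
      have h2 : w - b • u = 0 := H _ h1 (by rw [map_sub, map_smul, hw, hgu])
      have h3 : w = b • u := sub_eq_zero.mp h2
      rw [h3, real_inner_smul_left, inner_sub_right, real_inner_smul_right,
        real_inner_self_eq_norm_sq, ha, div_mul_cancel₀ _ hun, sub_self, mul_zero])
  refine ⟨c, ?_⟩
  rw [apply_eq g c]
  rw [← add_smul, show (1 / 2 : ℝ) + 1 / 2 = 1 by norm_num, one_smul] at hc
  have : g.linearIsometryEquiv c = c - (g 0 - a • u) := by rw [← hc]; abel
  rw [this]; abel

theorem sq_translation (g : V ≃ᵃⁱ[ℝ] V)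
    (H : ∀ x, g.linearIsometryEquiv (g.linearIsometryEquiv x) = x) :
    ∃ v : V, ∀ x, g (g x) = x + v := by
  refine ⟨g.linearIsometryEquiv (g 0) + g 0, fun x => ?_⟩
  rw [apply_eq g (g x), apply_eq g x, map_add, H, add_assoc]

/-- The case where `g` preserves the height and `h` does not. -/
theorem zero_case [FiniteDimensional ℝ V] (D : Data X g h p q) (t : V → ℝ) (β : ℝ)
    (hβ : 0 < β) (tg : ∀ x, t (g x) = t x) (th : ∀ x, t (h x) = t x + β) (v : V)
    (hv : ∀ x, g (g x) = x + v) : False := by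
  have gg_ne : g (g p) ≠ p := D.g_ne (D.g_mem D.hp)
  have hv0 : v ≠ 0 := by
    rintro rfl
    exact gg_ne (by rw [hv, add_zero])
  -- `v₁` with `h (z + v₁) = h z + v`
  set v₁ : V := h.linearIsometryEquiv.symm v with hv₁
  have hv₁0 : v₁ ≠ 0 := by
    intro h0
    apply hv0
    have := congrArg h.linearIsometryEquiv h0
    rwa [hv₁, LinearIsometryEquiv.apply_symm_apply, map_zero] at this
  have hadd : ∀ z, h (z + v₁) = h z + v := by
    intro z
    have := lin_sub h (z + v₁) z
    rw [add_sub_cancel_left, hv₁, LinearIsometryEquiv.apply_symm_apply] at this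
    rw [sub_eq_iff_eq_add.mp this, add_comm]
  have hsub : ∀ z, h (z - v₁) = h z - v := by
    intro z
    have := hadd (z - v₁)
    rw [sub_add_cancel] at this
    rw [this]; abel
  have tgg : ∀ x, t (x + v) = t x := by
    intro x
    rw [← hv, tg, tg]
  have tsub : ∀ x, t (x - v) = t x := by
    intro x
    have := tgg (x - v)
    rw [sub_add_cancel] at this
    exact this.symm
  have tv₁ : ∀ z, t (z + v₁) = t z := by
    intro z
    have h1 := th (z + v₁)
    rw [hadd, tgg, th] at h1
    linarith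
  have tv₁' : ∀ z, t (z - v₁) = t z := by
    intro z
    have h1 := th (z - v₁)
    rw [hsub, tsub, th] at h1
    linarith
  set Z : Set V := {z | t z = t p ∧ h z ∈ X} with hZ
  -- invariance under `v₁`
  have Zadd : ∀ z ∈ Z, z + v₁ ∈ Z := by
    rintro z ⟨h1, h2⟩
    refine ⟨by rw [tv₁, h1], ?_⟩
    rw [hadd, ← hv]
    exact D.g_mem (D.g_mem h2)
  have Zsub : ∀ z ∈ Z, z - v₁ ∈ Z := by
    rintro z ⟨h1, h2⟩
    refine ⟨by rw [tv₁', h1], ?_⟩
    rw [hsub]
    have hne : h z ≠ p := by
      intro heq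
      have := th z
      rw [heq, h1] at this
      linarith
    have h3 : g⁻¹ (h z) ∈ X := D.g_inv h2 hne
    have hne' : g⁻¹ (h z) ≠ p := by
      intro heq
      have h4 := tg (g⁻¹ (h z))
      rw [self_inv_app, heq, th, h1] at h4
      linarith
    have h5 : g⁻¹ (g⁻¹ (h z)) ∈ X := D.g_inv h3 hne'
    have h6 : g⁻¹ (g⁻¹ (h z)) = h z - v := by
      have := hv (g⁻¹ (g⁻¹ (h z)))
      rw [self_inv_app, self_inv_app] at this
      exact eq_sub_of_add_eq this.symm
    rwa [h6] at h5
  have Zaddn : ∀ (n : ℕ) (z : V), z ∈ Z → z + (n : ℝ) • v₁ ∈ Z := by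
    intro n
    induction n with
    | zero => intro z hz; simpa using hz
    | succ n ih =>
      intro z hz
      have := Zadd _ (ih z hz)
      convert this using 1
      push_cast; rw [add_smul, one_smul]; abel
  have Zsubn : ∀ (n : ℕ) (z : V), z ∈ Z → z - (n : ℝ) • v₁ ∈ Z := by
    intro n
    induction n with
    | zero => intro z hz; simpa using hz
    | succ n ih =>
      intro z hz
      have := Zsub _ (ih z hz)
      convert this using 1
      push_cast; rw [add_smul, one_smul]; abel
  -- points of `Z` outside `X`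
  have Zout : ∀ z ∈ Z, z ∉ X → z = h⁻¹ q := by
    rintro z ⟨h1, h2⟩ hzX
    by_contra hne
    apply hzX
    have : h⁻¹ (h z) ∈ X := by
      apply D.h_inv h2
      intro heq
      apply hne
      rw [← heq, inv_app_self]
    rwa [inv_app_self] at this
  have Xin : ∀ z ∈ X, t z = t p → z ∈ Z := fun z hz ht => ⟨ht, D.h_mem hz⟩
  -- choose a translate of `z` avoiding finitely many points
  have avoid : ∀ (z a b c : V), ∃ n : ℕ, z + (n : ℝ) • v₁ ≠ a ∧ z + (n : ℝ) • v₁ ≠ b ∧
      z + (n : ℝ) • v₁ ≠ c := by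
    intro z a b c
    have hinj : Function.Injective fun n : ℕ => z + (n : ℝ) • v₁ := by
      intro n m hnm
      have h1 : (n : ℝ) • v₁ = (m : ℝ) • v₁ := add_left_cancel hnm
      have h2 := smul_left_injective ℝ hv₁0 h1
      exact_mod_cast h2
    by_contra hcon
    push Not at hcon
    have hsubset : Set.range (fun n : ℕ => z + (n : ℝ) • v₁) ⊆ {a, b, c} := by
      rintro _ ⟨n, rfl⟩
      by_cases h1 : z + (n : ℝ) • v₁ = a
      · simp [h1]
      by_cases h2 : z + (n : ℝ) • v₁ = b
      · simp [h2]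
      have := hcon n h1 h2
      simp [this]
    exact (Set.infinite_range_of_injective hinj) ((Set.toFinite _).subset hsubset)
  -- `Z - v ⊆ Z`
  have Zsubv : ∀ z ∈ Z, z - v ∈ Z := by
    intro z hz
    obtain ⟨n, h1, h2, h3⟩ := avoid z (h⁻¹ q) p (g p)
    set z' := z + (n : ℝ) • v₁ with hz'
    have hz'Z : z' ∈ Z := Zaddn n z hz
    have hz'X : z' ∈ X := by
      by_contra hcon
      exact h1 (Zout z' hz'Z hcon)
    have h4 : g⁻¹ z' ∈ X := D.g_inv hz'X h2
    have h5 : g⁻¹ z' ≠ p := by
      intro heq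
      apply h3
      rw [← heq, self_inv_app]
    have h6 : g⁻¹ (g⁻¹ z') ∈ X := D.g_inv h4 h5
    have h7 : g⁻¹ (g⁻¹ z') = z' - v := by
      have := hv (g⁻¹ (g⁻¹ z'))
      rw [self_inv_app, self_inv_app] at this
      exact eq_sub_of_add_eq this.symm
    rw [h7] at h6
    have h8 : z' - v ∈ Z := Xin _ h6 (by rw [tsub]; exact hz'Z.1)
    have h9 := Zsubn n _ h8
    convert h9 using 1
    rw [hz']; abel
  -- contradiction
  have hpZ : p ∈ Z := Xin p D.hp rfl
  have hgpZ : g p ∈ Z := Xin _ (D.g_mem D.hp) (tg p)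
  have h1 : p - v ∉ X := by
    intro hX
    have := hv (p - v)
    rw [sub_add_cancel] at this
    exact D.g_ne (D.g_mem hX) this
  have h2 : g p - v ∉ X := by
    intro hX
    have h3 := hv (g p - v)
    rw [sub_add_cancel] at h3
    have h4 := g.injective h3
    exact D.g_ne hX h4
  have h3 := Zout _ (Zsubv p hpZ) h1
  have h4 := Zout _ (Zsubv _ hgpZ) h2
  have h5 : p = g p := by
    have := h3.trans h4.symm
    exact sub_left_injective this
  exact D.g_ne D.hp h5.symm

/-- Main theorem: no discrete data in dimension three. -/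
theorem false_of_finrank (hV : Module.finrank ℝ V = 3) (D : Data X g h p q) : False := by
  have hfin : FiniteDimensional ℝ V := Module.finite_of_finrank_pos (by omega)
  rcases fixed_or_drift g h with ⟨l, m, hl, hm, hlm, o, ho⟩ | ⟨u, hu, hgu, hhu, h1, h2, h3⟩
  · exact D.steering l m hl hm hlm o ho
  have key : ∀ (s : V ≃ᵃⁱ[ℝ] V), s.linearIsometryEquiv u = u →
      ∀ x, ⟪u, s x⟫_ℝ = ⟪u, x⟫_ℝ + ⟪u, s 0⟫_ℝ := by
    intro s hs x
    rw [apply_eq s x, inner_add_right]
    congr 1
    conv_lhs => rw [← hs]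
    exact LinearIsometryEquiv.inner_map_map _ _ _
  have tg := key g hgu
  have th := key h hhu
  -- the zero case, for a pair in any order
  have zero : ∀ {g h : V ≃ᵃⁱ[ℝ] V} {p q : V}, Data X g h p q → g.linearIsometryEquiv u = u →
      h.linearIsometryEquiv u = u → ⟪u, g 0⟫_ℝ = 0 → 0 < ⟪u, h 0⟫_ℝ → False := by
    intro g h p q D hgu hhu hg0 hh0
    rcases dichotomy hV g.linearIsometryEquiv u hu hgu with H | H
    · obtain ⟨v, hv⟩ := sq_translation g H
      exact D.zero_case (fun x => ⟪u, x⟫_ℝ) _ hh0 (fun x => by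
        have := key g hgu x
        simp only [this, hg0, add_zero]) (fun x => key h hhu x) v hv
    · obtain ⟨c, hc⟩ := exists_axis g u hu hgu H
      rw [hg0, zero_div, zero_smul, add_zero] at hc
      exact D.no_fixed_point c hc
  rcases h1.lt_or_eq with h1' | h1'
  · rcases h2.lt_or_eq with h2' | h2'
    · -- both drifts positive
      rcases dichotomy hV g.linearIsometryEquiv u hu hgu with Hg | Hg
      · rcases dichotomy hV h.linearIsometryEquiv u hu hhu with Hh | Hh
        · obtain ⟨v, hv⟩ := sq_translation g Hg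
          obtain ⟨v', hv'⟩ := sq_translation h Hh
          refine D.commuting (fun x => ⟪u, x⟫_ℝ) _ _ h1' h2' tg th 2 2 (by norm_num)
            (by norm_num) ?_
          intro z _
          have e1 : ∀ x, (g ^ 2) x = x + v := fun x => by rw [← hv, pow_two, mul_app]
          have e2 : ∀ x, (h ^ 2) x = x + v' := fun x => by rw [← hv', pow_two, mul_app]
          rw [e1, e2, e1, e2]; abel
        · obtain ⟨c, hc⟩ := exists_axis h u hu hhu Hh
          obtain ⟨m, hm, hcomm⟩ := D.swap.commute_of_fixed (fun x => ⟪u, x⟫_ℝ) _ _ h2' h1' th tg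
            c _ hc (by rw [map_smul, hhu]) (by rw [map_smul, hgu])
          refine D.commuting (fun x => ⟪u, x⟫_ℝ) _ _ h1' h2' tg th 1 m one_pos hm ?_
          intro z hz
          rw [pow_one]
          exact (hcomm z hz).symm
      · obtain ⟨c, hc⟩ := exists_axis g u hu hgu Hg
        obtain ⟨m, hm, hcomm⟩ := D.commute_of_fixed (fun x => ⟪u, x⟫_ℝ) _ _ h1' h2' tg th
          c _ hc (by rw [map_smul, hgu]) (by rw [map_smul, hhu])
        refine D.commuting (fun x => ⟪u, x⟫_ℝ) _ _ h1' h2' tg th m 1 hm one_pos ?_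
        intro z hz
        rw [pow_one]
        exact hcomm z hz
    · exact zero D.swap hhu hgu h2'.symm h1'
  · rcases h3 with h3 | h3
    · rw [← h1'] at h3; exact absurd h3 (lt_irrefl _)
    · exact zero D hgu hhu h1'.symm h3

end Data

end Pool.Agent.Work.MP_9ec85a_gt
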